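import Pool.Agent.helper65.GD.SpecF

/-!
# gf:XT3: the coefficients of `T`
-/

set_option autoImplicit false

namespace Pool.Agent.GD

open Finset Metric Filter Topology

theorem XT3_norm (x z : ℂ) (hx : ‖x‖ = 1) (hz : z ∈ ball (0 : ℂ) 1) : ‖x * z‖ < 1 := by
  rw [norm_mul, hx, one_mul]
  simpa using hz

theorem XT3_slit (x z : ℂ) (hx : ‖x‖ = 1) (hz : z ∈ ball (0 : ℂ) 1) :
    1 - x * z ∈ Complex.slitPlane := by
  left
  have h := XT3_norm x z hx hz
  have h2 := Complex.abs_re_le_norm (x * z)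
  have h3 := (abs_lt.1 (lt_of_le_of_lt h2 h)).2
  rw [Complex.sub_re, Complex.one_re]
  linarith

theorem XT3_ne (x z : ℂ) (hx : ‖x‖ = 1) (hz : z ∈ ball (0 : ℂ) 1) : 1 - x * z ≠ 0 :=
  Complex.slitPlane_ne_zero (XT3_slit x z hx hz)

theorem XT3_geo (x z : ℂ) (hx : ‖x‖ = 1) (hz : z ∈ ball (0 : ℂ) 1) :
    HasSum (fun n : ℕ => x ^ n * z ^ n) (1 - x * z)⁻¹ := by
  have h := hasSum_geometric_of_norm_lt_one (XT3_norm x z hx hz)
  simpa only [mul_pow] using h

theorem XT3_geo0 (x z : ℂ) (hx : ‖x‖ = 1) (hz : z ∈ ball (0 : ℂ) 1) :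
    HasSum (fun n : ℕ => (if n = 0 then 0 else x ^ n) * z ^ n) (x * z / (1 - x * z)) := by
  have h := XT3_geo x z hx hz
  have h1 : HasSum (fun n : ℕ => if n = 0 then (1 : ℂ) else 0) 1 := by
    have := hasSum_ite_eq (0 : ℕ) (1 : ℂ)
    exact this
  have h2 := h.sub h1
  have e : (1 - x * z)⁻¹ - 1 = x * z / (1 - x * z) := by
    have hne := XT3_ne x z hx hz
    field_simp
    ring
  rw [e] at h2
  have e2 : (fun n : ℕ => (if n = 0 then 0 else x ^ n) * z ^ n) =
      fun n : ℕ => x ^ n * z ^ n - (if n = 0 then (1 : ℂ) else 0) := by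
    funext n
    rcases Nat.eq_zero_or_pos n with h0 | h0
    · subst h0
      simp
    · rw [if_neg (by omega), if_neg (by omega), sub_zero]
  rw [e2]
  exact h2

theorem XT3_B (N : ℕ) (w : Fin N → ℝ) (x : Fin N → ℂ) (hx : ∀ l, ‖x l‖ = 1) :
    Ser (fun n => if n = 0 then 0 else mom w x n)
      (fun z => ∑ l, (w l : ℂ) * (x l * z / (1 - x l * z))) := by
  intro z hz
  have h : HasSum (fun n : ℕ => ∑ l, (w l : ℂ) * ((if n = 0 then 0 else x l ^ n) * z ^ n))
      (∑ l, (w l : ℂ) * (x l * z / (1 - x l * z))) :=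
    hasSum_sum fun l _ => (XT3_geo0 (x l) z (hx l) hz).mul_left (w l : ℂ)
  have e : (fun n : ℕ => (if n = 0 then 0 else mom w x n) * z ^ n) =
      fun n : ℕ => ∑ l, (w l : ℂ) * ((if n = 0 then 0 else x l ^ n) * z ^ n) := by
    funext n
    rcases Nat.eq_zero_or_pos n with h0 | h0
    · subst h0
      simp
    · have hn : n ≠ 0 := by omega
      simp only [if_neg hn]
      unfold mom
      rw [Finset.sum_mul]
      refine Finset.sum_congr rfl fun l _ => ?_
      ring
  rw [e]
  exact h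

theorem XT3_der (N : ℕ) (w : Fin N → ℝ) (x : Fin N → ℂ) (hx : ∀ l, ‖x l‖ = 1) (z : ℂ)
    (hz : z ∈ ball (0 : ℂ) 1) :
    HasDerivAt (fun z : ℂ => Complex.exp (∑ l, (w l : ℂ) * Complex.log (1 - x l * z)))
      (Complex.exp (∑ l, (w l : ℂ) * Complex.log (1 - x l * z)) *
        ∑ l, (w l : ℂ) * (-(x l) / (1 - x l * z))) z := by
  have h : HasDerivAt (fun z : ℂ => ∑ l, (w l : ℂ) * Complex.log (1 - x l * z))
      (∑ l, (w l : ℂ) * (-(x l) / (1 - x l * z))) z := by
    apply HasDerivAt.fun_sum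
    intro l _
    apply HasDerivAt.const_mul
    have h1 : HasDerivAt (fun z : ℂ => 1 - x l * z) (-(x l)) z := by
      have h2 := ((hasDerivAt_id z).const_mul (x l)).const_sub 1
      simpa using h2
    exact h1.clog (XT3_slit (x l) z (hx l) hz)
  exact h.cexp

theorem XT3 (h1 : XOD_stmt) : XT3_stmt := by
  intro N w x y hA hy
  obtain ⟨hw, hw1, hx⟩ := hA
  have hE : Ser (ex (-1) (mom w x))
      (fun z => Complex.exp (∑ l, (w l : ℂ) * Complex.log (1 - x l * z))) := by
    refine h1 (-1) (mom w x) _ (fun z => ∑ l, (w l : ℂ) * (x l * z / (1 - x l * z))) ?_ ?_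
      (XT3_B N w x hx) ?_
    · intro z hz
      exact (XT3_der N w x hx z hz).differentiableAt.differentiableWithinAt
    · simp
    · intro z hz
      rw [(XT3_der N w x hx z hz).deriv]
      have e : z * ∑ l, (w l : ℂ) * (-(x l) / (1 - x l * z)) =
          -∑ l, (w l : ℂ) * (x l * z / (1 - x l * z)) := by
        rw [Finset.mul_sum, ← Finset.sum_neg_distrib]
        refine Finset.sum_congr rfl fun l _ => ?_
        ring
      have e2 : ∀ a b c d : ℂ, a * c = -d → a * (b * c) = -1 * (d * b) := by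
        intro a b c d h
        calc a * (b * c) = b * (a * c) := by ring
          _ = b * (-d) := by rw [h]
          _ = -1 * (d * b) := by ring
      exact e2 _ _ _ _ e
  have hG : Ser (fun m => y ^ m) (fun z => (1 - y * z)⁻¹) := fun z hz => XT3_geo y z hy hz
  have h3 := CO3 _ _ _ _ hE hG
  intro z hz
  have h4 := h3 z hz
  have e1 : (fun n => gy (ex (-1) (mom w x)) y n * z ^ n) =
      fun n => (∑ m ∈ range (n + 1), ex (-1) (mom w x) m * y ^ (n - m)) * z ^ n := by
    funext n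
    unfold gy
    congr 1
    refine Finset.sum_congr rfl fun m _ => ?_
    ring
  have e2 : TF w x y z =
      Complex.exp (∑ l, (w l : ℂ) * Complex.log (1 - x l * z)) * (1 - y * z)⁻¹ := by
    unfold TF
    have hs : (∑ l, (w l : ℂ)) = 1 := by
      rw [← Complex.ofReal_sum, hw1, Complex.ofReal_one]
    have e3 : ∑ l, (w l : ℂ) * (Complex.log (1 - x l * z) - Complex.log (1 - y * z)) =
        (∑ l, (w l : ℂ) * Complex.log (1 - x l * z)) + -Complex.log (1 - y * z) := by
      simp only [mul_sub, Finset.sum_sub_distrib]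
      rw [← Finset.sum_mul, hs]
      ring
    rw [e3, Complex.exp_add, Complex.exp_neg, Complex.exp_log (XT3_ne y z hy hz)]
  rw [e1, e2]
  exact h4

end Pool.Agent.GD
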